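import Pool.Agent.H30.VM.TargetsB
import Pool.Agent.H30.VM.TargetsD
import Pool.Agent.H97.VG.NA

/-!
# MP_70ba79_ag: module NAT of the board `vmp_modules`: choice of columns, first case
-/

set_option autoImplicit false

namespace Pool.Agent.H1.VMP

open MvPolynomial SC Pool.Agent.H27.LV Pool.Agent.H17.VG
open Pool.Agent.H97.VG (opF_nul opV_nul opF_add' opV_add' opF_smul' opV_smul' opF_sum' opV_sum'
  up1 det_ne_zero_of_indep)
open Pool.Agent.H17.CI (Tup IlT PQT TxT frmT upT RatT)
open Pool.Agent.H30.VM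

section Ut

variable {R K : Type} [Field R] [Field K] [Algebra R K] {n : ℕ} {ι : Type} {i₀ : ι}

/-- the velocities of the operators with symbols in a span -/
theorem utT_le (hWDT : Pool.Agent.H30.VM.T_WDT) {e : ι → ℕ} {F : Tup ι K n} {D : Derivation R K K}
    (hS : SysT i₀ e F D) (x : Fin (n + 1) → K) (g : Set (Tup ι K n))
    (N : Submodule K (Fin (n + 1) → K)) (hx : x ∈ N) (hD : (fun i => D (x i)) ∈ N)
    (h : ∀ G ∈ g, ∃ (τ : Op R K n) (l : ι → K), Sym i₀ F τ l G ∧ opV τ x ∈ N) :
    UtT R i₀ F x (Submodule.span K g) ≤ N := by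
  have key : ∀ G ∈ Submodule.span K g, ∃ (τ : Op R K n) (l : ι → K),
      Sym i₀ F τ l G ∧ opV τ x ∈ N := by
    intro G hG
    induction hG using Submodule.span_induction with
    | mem G hG => exact h G hG
    | zero =>
      refine ⟨0, 0, ⟨rfl, fun i => ?_⟩, by rw [opV_nul]; exact N.zero_mem⟩
      rw [opF_nul]
      simp
    | add G G' _ _ h1 h2 =>
      obtain ⟨τ, l, h3, h4⟩ := h1
      obtain ⟨τ', l', h5, h6⟩ := h2
      refine ⟨τ + τ', l + l', ⟨?_, fun i => ?_⟩, by rw [opV_add']; exact N.add_mem h4 h6⟩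
      · rw [Pi.add_apply, h3.1, h5.1, add_zero]
      · rw [opF_add', Pi.add_apply, Pi.add_apply, ← h3.2 i, ← h5.2 i, C_add]
        ring
    | smul a G _ h1 =>
      obtain ⟨τ, l, h3, h4⟩ := h1
      refine ⟨a • τ, a • l, ⟨?_, fun i => ?_⟩, by rw [opV_smul']; exact N.smul_mem a h4⟩
      · rw [Pi.smul_apply, h3.1, smul_zero]
      · rw [opF_smul', Pi.smul_apply, Pi.smul_apply, ← h3.2 i, smul_eq_mul, C_mul,
          smul_eq_C_mul]
        ring
  unfold UtT
  rw [Submodule.span_le]
  rintro w (⟨τ, l, G, hG, h1, h2⟩ | h1)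
  · obtain ⟨τ', l', h3, h4⟩ := key G hG
    obtain ⟨c, hc⟩ := hWDT R K n ι i₀ e F D hS τ τ' l l' G h1 h3
    rw [SetLike.mem_coe, h2, hc]
    exact N.add_mem h4 (N.smul_mem c hD)
  · rw [Set.mem_singleton_iff.1 h1]
    exact hx

/-- symbol of a combination -/
theorem sym_comb {s : ℕ} (F : Tup ι K n) (Q : Fin s → Tup ι K n)
    (τ : Fin (n + 1) → Fin s → Op R K n) (l : Fin (n + 1) → Fin s → ι → K)
    (hτ : ∀ i j, Sym i₀ F (τ i j) (l i j) (fun a => X i * Q j a))
    (ξ : Fin (n + 1) → K) (j : Fin s) :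
    Sym i₀ F (∑ i, ξ i • τ i j) (∑ i, ξ i • l i j) (fun a => lin ξ * Q j a) := by
  refine ⟨?_, fun a => ?_⟩
  · rw [Finset.sum_apply]
    refine Finset.sum_eq_zero fun i _ => ?_
    rw [Pi.smul_apply, (hτ i j).1, smul_zero]
  · rw [opF_sum', Finset.sum_apply, map_sum, Finset.sum_mul, ← Finset.sum_add_distrib]
    show _ = lin ξ * Q j a
    unfold lin
    rw [Finset.sum_mul]
    refine Finset.sum_congr rfl fun i _ => ?_
    rw [opF_smul', Pi.smul_apply, smul_eq_mul, C_mul, mul_assoc, ← mul_add, (hτ i j).2 a,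
      mul_assoc]

end Ut

/-- the minor of the gradients is injective -/
theorem gJ_inj {K : Type} [Field K] {n : ℕ} {ι : Type} {A : Finset ι} (F : Tup ι K n)
    (x : Fin (n + 1) → K) (J : A → Fin (n + 1)) (hJ : gJ F x J ≠ 0) (u : A → K)
    (h : ∀ i : A, ∑ z : A, eval x (pderiv (J z) (F i)) * u z = 0) : u = 0 := by
  unfold gJ at hJ
  let _ := Classical.decEq ι
  refine Matrix.eq_zero_of_mulVec_eq_zero hJ ?_
  funext i
  exact h i

/-- pairing with a gradient -/
theorem sum_single {K : Type} [Field K] {n : ℕ} {ζ : Type} [Fintype ζ] (J : ζ → Fin (n + 1))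
    (c : ζ → K) (g : Fin (n + 1) → K) :
    ∑ a, (∑ z, c z • (Pi.single (J z) 1 : Fin (n + 1) → K)) a * g a = ∑ z, g (J z) * c z := by
  classical
  have h1 : ∀ a, (∑ z, c z • (Pi.single (J z) 1 : Fin (n + 1) → K)) a * g a =
      ∑ z, if a = J z then c z * g a else 0 := by
    intro a
    rw [Finset.sum_apply, Finset.sum_mul]
    refine Finset.sum_congr rfl fun z _ => ?_
    rw [Pi.smul_apply, Pi.single_apply, smul_eq_mul]
    split_ifs
    · rw [mul_one]
    · rw [mul_zero, zero_mul]
  simp only [h1]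
  rw [Finset.sum_comm]
  refine Finset.sum_congr rfl fun z _ => ?_
  rw [Finset.sum_ite_eq' Finset.univ (J z) (fun a => c z * g a), if_pos (Finset.mem_univ _),
    mul_comm]

/-- NAT -/
theorem pf_NAT (_hSY : T_SY) (hWDT : Pool.Agent.H30.VM.T_WDT) (hEVT : T_EVT) : T_NAT := by
  classical
  intro R k K _ _ _ _ _ _ n s ι _ _ i₀ e F D D' Z x p hp hS hDD hPt Q τ l hτ hfin J hJ
  obtain ⟨-, hE2, hE3, hE4, hE5⟩ := hEVT R K n ι i₀ e F D' Z x hS hPt
  have hDx : (fun i => D' (x i)) = (fun i => D (x i)) := funext fun i => hDD _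
  rw [hDx] at hE3
  have hle : UtT R i₀ F x (PQT x Q) ≤ TxT Z F x := by
    refine hE5 _ fun G hG i hi => ?_
    unfold PQT at hG
    induction hG using Submodule.span_induction with
    | mem G hG =>
      obtain ⟨ξ, j, hξ', rfl⟩ := hG
      have h1 : eval x (lin ξ) = ∑ i, ξ i * x i := by
        unfold lin
        simp
      rw [map_mul, h1, hξ', zero_mul]
    | zero => simp
    | add G G' _ _ h h' => rw [Pi.add_apply, map_add, h, h', add_zero]
    | smul a G _ h => rw [Pi.smul_apply, smul_eq_C_mul, map_mul, h, mul_zero]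
  have hTx : UtT R i₀ F x (PQT x Q) = TxT Z F x :=
    Submodule.eq_of_le_of_finrank_eq hle (by omega)
  -- the columns
  set M := bigP D x (fun c : Fin (n + 1) × Fin s => τ c.1 c.2) (fun c => c.1) (fun c => c.2) J
    with hM
  set v : ((Fin (n + 1) × Fin s) ⊕ Fin 2) ⊕ Z → (Fin (n + 1) ⊕ Fin s → K) :=
    fun c r => M r c with hv
  have hv0 : v (Sum.inl (Sum.inr 0)) = up1 K n s (fun i => D (x i)) := by
    funext r
    rcases r with r | r <;> rfl
  have hv1 : v (Sum.inl (Sum.inr 1)) = up1 K n s x := by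
    funext r
    rcases r with r | r <;> rfl
  have hvZ : ∀ z, v (Sum.inr z) = up1 K n s (Pi.single (J z) 1) := by
    intro z
    funext r
    rcases r with r | r
    · show (if J z = r then (1 : K) else 0) = (Pi.single (J z) 1 : Fin (n + 1) → K) r
      rw [Pi.single_apply]
      simp only [eq_comm]
    · rfl
  have hvc : ∀ i j, v (Sum.inl (Sum.inl (i, j))) = Sum.elim (opV (τ i j) x)
      (fun b => if j = b then x i else 0) := by
    intro i j
    funext r
    rcases r with r | r <;> rfl
  -- tangent vectors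
  have hN : TxT Z F x ≤ (Submodule.span K (Set.range v)).comap (up1 K n s) := by
    rw [← hTx]
    refine utT_le hWDT hS x _ _ ?_ ?_ ?_
    · rw [Submodule.mem_comap, ← hv1]
      exact Submodule.subset_span ⟨_, rfl⟩
    · rw [Submodule.mem_comap, hDx, ← hv0]
      exact Submodule.subset_span ⟨_, rfl⟩
    · rintro G ⟨ξ, j, h1, rfl⟩
      refine ⟨_, _, sym_comb F Q τ l hτ ξ j, ?_⟩
      rw [Submodule.mem_comap]
      have h3 : up1 K n s (opV (∑ i, ξ i • τ i j) x) =
          ∑ i, ξ i • v (Sum.inl (Sum.inl (i, j))) := by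
        rw [opV_sum']
        funext r
        rcases r with r | r
        · change (∑ i, opV (ξ i • τ i j) x) r = _
          rw [Finset.sum_apply, Finset.sum_apply]
          refine Finset.sum_congr rfl fun i _ => ?_
          rw [opV_smul', hvc]
          rfl
        · change (0 : K) = _
          rw [Finset.sum_apply]
          by_cases hr : j = r
          · rw [← h1]
            refine Finset.sum_congr rfl fun i _ => ?_
            rw [hvc, Pi.smul_apply, Sum.elim_inr, if_pos hr, smul_eq_mul]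
          · symm
            refine Finset.sum_eq_zero fun i _ => ?_
            rw [hvc, Pi.smul_apply, Sum.elim_inr, if_neg hr, smul_zero]
      rw [h3]
      exact Submodule.sum_mem _ fun i _ => Submodule.smul_mem _ _
        (Submodule.subset_span ⟨_, rfl⟩)
  -- the functionals
  have hJu := gJ_inj F x J hJ
  let Gm : Matrix Z Z K := Matrix.of fun i z => eval x (pderiv (J z) (F i))
  have hGdet : IsUnit Gm.det := by
    rw [isUnit_iff_ne_zero]
    intro h0
    obtain ⟨u, hu, hu0⟩ := Matrix.exists_mulVec_eq_zero_iff.2 h0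
    exact hu (hJu u fun i => congrFun hu0 i)
  have hup : ∀ w : Fin (n + 1) → K, up1 K n s w ∈ Submodule.span K (Set.range v) := by
    intro w
    obtain ⟨y, hy⟩ : ∃ y : Z → K, y = fun i : Z => ∑ a, w a * eval x (pderiv a (F i)) :=
      ⟨_, rfl⟩
    obtain ⟨c, hc⟩ : ∃ c : Z → K, Gm.mulVec c = y := by
      refine ⟨Gm⁻¹.mulVec y, ?_⟩
      rw [Matrix.mulVec_mulVec, Matrix.mul_nonsing_inv _ hGdet, Matrix.one_mulVec]
    obtain ⟨w', hw'⟩ : ∃ w' : Fin (n + 1) → K,
        w' = w - ∑ z, c z • (Pi.single (J z) 1 : Fin (n + 1) → K) := ⟨_, rfl⟩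
    have h1 : w' ∈ TxT Z F x := by
      intro i hi
      have h2 := congrFun hc (⟨i, hi⟩ : Z)
      rw [hy] at h2
      have h3 : ∑ z : Z, eval x (pderiv (J z) (F i)) * c z =
          ∑ a, w a * eval x (pderiv a (F i)) := h2
      rw [hw']
      simp only [Pi.sub_apply, sub_mul]
      rw [Finset.sum_sub_distrib, sum_single J c (fun a => eval x (pderiv a (F i))), h3,
        sub_self]
    have h4 : up1 K n s w' ∈ Submodule.span K (Set.range v) := hN h1
    have h5 : w = w' + ∑ z, c z • (Pi.single (J z) 1 : Fin (n + 1) → K) := by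
      rw [hw', sub_add_cancel]
    rw [h5, map_add, map_sum]
    refine Submodule.add_mem _ h4 (Submodule.sum_mem _ fun z _ => ?_)
    rw [map_smul, ← hvZ]
    exact Submodule.smul_mem _ _ (Submodule.subset_span ⟨_, rfl⟩)
  have hspan : Submodule.span K (Set.range v) = ⊤ := by
    rw [eq_top_iff]
    intro f _
    have h1 : f = up1 K n s (fun i => f (Sum.inl i)) +
        ∑ b, f (Sum.inr b) • (v (Sum.inl (Sum.inl (p, b))) - up1 K n s (opV (τ p b) x)) := by
      funext r
      rw [Pi.add_apply, Finset.sum_apply]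
      rcases r with r | r
      · rw [Finset.sum_eq_zero]
        · exact (add_zero _).symm
        · intro b _
          rw [Pi.smul_apply, Pi.sub_apply, hvc]
          change f (Sum.inr b) • (opV (τ p b) x r - opV (τ p b) x r) = 0
          rw [sub_self, smul_zero]
      · rw [Finset.sum_eq_single r]
        · rw [Pi.smul_apply, Pi.sub_apply, hvc]
          change f (Sum.inr r) = 0 + f (Sum.inr r) • ((if r = r then x p else 0) - 0)
          rw [if_pos rfl, hp, sub_zero, zero_add, smul_eq_mul, mul_one]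
        · intro b _ hb
          rw [Pi.smul_apply, Pi.sub_apply, hvc]
          change f (Sum.inr b) • ((if b = r then x p else 0) - 0) = 0
          rw [if_neg hb, sub_zero, smul_zero]
        · intro h
          exact absurd (Finset.mem_univ r) h
    rw [h1]
    refine Submodule.add_mem _ (hup _) (Submodule.sum_mem _ fun b _ => Submodule.smul_mem _ _
      (Submodule.sub_mem _ (Submodule.subset_span ⟨_, rfl⟩) (hup _)))
  -- the last columns are independent
  let h0 : Fin 2 ⊕ Z → ((Fin (n + 1) × Fin s) ⊕ Fin 2) ⊕ Z :=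
    Sum.elim (fun u => Sum.inl (Sum.inr u)) Sum.inr
  have hh0 : Function.Injective h0 := by
    rintro (u | z) (u' | z') h
    · exact congrArg Sum.inl (Sum.inr_injective (Sum.inl_injective h))
    · exact absurd h (by simp [h0])
    · exact absurd h (by simp [h0])
    · exact congrArg Sum.inr (Sum.inr_injective h)
  have hind : LinearIndepOn K v (Set.range h0) := by
    rw [linearIndepOn_range_iff hh0, Fintype.linearIndependent_iff]
    intro u hu
    have h1 : (u (Sum.inl 0) • (fun b => D (x b)) + u (Sum.inl 1) • x) +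
        ∑ z, u (Sum.inr z) • (Pi.single (J z) 1 : Fin (n + 1) → K) = 0 := by
      rw [Fintype.sum_sum_type, Fin.sum_univ_two] at hu
      simp only [Function.comp_apply, h0, Sum.elim_inl, Sum.elim_inr, hvZ] at hu
      have h2 : up1 K n s ((u (Sum.inl 0) • (fun b => D (x b)) + u (Sum.inl 1) • x) +
          ∑ z, u (Sum.inr z) • (Pi.single (J z) 1 : Fin (n + 1) → K)) = 0 := by
        rw [map_add, map_add, map_sum, map_smul, map_smul, ← hv0, ← hv1]
        simp only [map_smul]
        exact hu
      funext a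
      exact congrFun h2 (Sum.inl a)
    have h2 : (fun z => u (Sum.inr z)) = 0 := by
      refine hJu _ fun i => ?_
      have h3 : ∑ a, ((u (Sum.inl 0) • (fun b => D (x b)) + u (Sum.inl 1) • x) +
          ∑ z, u (Sum.inr z) • (Pi.single (J z) 1 : Fin (n + 1) → K)) a *
          eval x (pderiv a (F i)) = 0 := by
        rw [h1]
        simp
      have h4 : ∑ a, (u (Sum.inl 0) • (fun b => D (x b)) + u (Sum.inl 1) • x) a *
          eval x (pderiv a (F i)) = 0 :=
        (TxT Z F x).add_mem ((TxT Z F x).smul_mem _ hE3) ((TxT Z F x).smul_mem _ hE2) i i.2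
      have h5 := sum_single J (fun z => u (Sum.inr z)) (fun a => eval x (pderiv a (F i)))
      rw [← h5]
      simp only [Pi.add_apply, add_mul] at h3 h4
      rw [Finset.sum_add_distrib, h4, zero_add] at h3
      exact h3
    have h3 : u (Sum.inl 0) • (fun b => D (x b)) + u (Sum.inl 1) • x = 0 := by
      rw [Finset.sum_eq_zero, add_zero] at h1
      · exact h1
      · intro z _
        rw [show u (Sum.inr z) = 0 from congrFun h2 z, zero_smul]
    have h4 : LinearIndependent K ![x, fun i => D (x i)] := hDx ▸ hPt.dx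
    rw [LinearIndependent.pair_iff] at h4
    have h5 := h4 (u (Sum.inl 1)) (u (Sum.inl 0)) ((add_comm _ _).trans h3)
    rintro (t | z)
    · fin_cases t
      · exact h5.2
      · exact h5.1
    · exact congrFun h2 z
  obtain ⟨B, -, hB1, hB2, hB3⟩ := exists_linearIndepOn_extension hind (Set.subset_univ _)
  set T : Finset (Fin (n + 1) × Fin s) :=
    Finset.univ.filter fun c => Sum.inl (Sum.inl c) ∈ B with hT
  let g : (T ⊕ Fin 2) ⊕ Z → ((Fin (n + 1) × Fin s) ⊕ Fin 2) ⊕ Z :=
    Sum.map (Sum.map (fun c => c.1) id) id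
  have hg : Function.Injective g :=
    (Subtype.val_injective.sumMap Function.injective_id).sumMap Function.injective_id
  have hgB : Set.range g = B := by
    ext c
    constructor
    · rintro ⟨(c | t) | z, rfl⟩
      · exact (Finset.mem_filter.1 c.2).2
      · exact hB1 ⟨Sum.inl t, rfl⟩
      · exact hB1 ⟨Sum.inr z, rfl⟩
    · intro hc
      rcases c with (c | t) | z
      · exact ⟨Sum.inl (Sum.inl ⟨c, Finset.mem_filter.2 ⟨Finset.mem_univ c, hc⟩⟩), rfl⟩
      · exact ⟨Sum.inl (Sum.inr t), rfl⟩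
      · exact ⟨Sum.inr z, rfl⟩
  have hli : LinearIndependent K (v ∘ g) := by
    rw [← linearIndepOn_range_iff hg, hgB]
    exact hB3
  have hsp : Submodule.span K (Set.range (v ∘ g)) = ⊤ := by
    rw [Set.range_comp, hgB, eq_top_iff, ← hspan, Submodule.span_le]
    rw [Set.image_univ] at hB2
    exact hB2
  have hcard : Fintype.card ((T ⊕ Fin 2) ⊕ Z) = Fintype.card (Fin (n + 1) ⊕ Fin s) := by
    have h1 := finrank_span_eq_card hli
    rw [hsp, finrank_top, Module.finrank_fintype_fun_eq_card] at h1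
    exact h1.symm
  refine ⟨T, Fintype.equivOfCardEq hcard, ?_⟩
  refine det_ne_zero_of_indep (Fintype.equivOfCardEq hcard) _ ?_
  have h1 : (fun (c : (T ⊕ Fin 2) ⊕ Z) (r : Fin (n + 1) ⊕ Fin s) =>
      bigP D x (fun c : T => τ c.1.1 c.1.2) (fun c => c.1.1) (fun c => c.1.2) J r c) =
      v ∘ g := by
    funext c r
    rcases c with (c | c) | c <;> rcases r with r | r <;> rfl
  rw [h1]
  exact hli

end Pool.Agent.H1.VMP
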