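import Pool.Agent.H30.VM.TargetsB
import Pool.Agent.H56.CI.PST

/-!
# MP_70ba79_ag: module PST of the board `vmp_modules`: codimension of `YlT`
-/

set_option autoImplicit false

namespace Pool.Agent.H1.VMP

open MvPolynomial SC Pool.Agent.H27.LV Pool.Agent.H17.VG
open Pool.Agent.H66.VG (opFL opFL_apply opVL opVL_apply resL resL_apply mem_degreeLT key
  finrank_degreeLT)
open Pool.Agent.H56.CI (pi_fd pi_finrank symL symL_apply symL_homog eval_Il)
open Pool.Agent.H17.CI (Tup IlT PQT TxT frmT upT RatT)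
open Pool.Agent.H30.VM

section Op

variable {R K : Type} [Field R] [Field K] [Algebra R K] {n : ℕ} {ι : Type}

theorem mem_UtT {i₀ : ι} {F : Tup ι K n} {x : Fin (n + 1) → K} {W : Submodule K (Tup ι K n)}
    {τ : Op R K n} {l : ι → K} {G : Tup ι K n} (hG : G ∈ W) (h : Sym i₀ F τ l G) :
    opV τ x ∈ UtT R i₀ F x W := Submodule.subset_span (Or.inl ⟨τ, l, G, hG, h, rfl⟩)

theorem self_mem_UtT (i₀ : ι) (F : Tup ι K n) (x : Fin (n + 1) → K)
    (W : Submodule K (Tup ι K n)) :
    x ∈ UtT R i₀ F x W := Submodule.subset_span (Or.inr rfl)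

end Op

theorem pf_PST (hOP : Pool.Agent.H17.VG.T_OP) (hRS : Pool.Agent.H17.VG.T_RS)
    (hIL : Pool.Agent.H17.VG.T_IL) (hEVT : T_EVT) (hSUT : T_SUT) : T_PST := by
  intro R K _ _ _ _ n ι _ i₀ e F D Z x y hi₀ hS hx hxy m hm
  set U := UtT R i₀ F x (IlT e x y) with hU
  -- triples
  let S1 : Submodule K ((ι → Polynomial K) × (Op R K n × (ι → K))) :=
    { carrier := {v | (∀ i, v.1 i ∈ Polynomial.degreeLT K (e i + 1)) ∧ v.2.2 i₀ = 0 ∧
        ∀ i, resL x y (symL hOP F i v.2) = Polynomial.X * v.1 i}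
      zero_mem' := by
        refine ⟨fun i => Submodule.zero_mem _, rfl, fun i => ?_⟩
        simp
      add_mem' := by
        rintro v w ⟨h1, h2, h3⟩ ⟨k1, k2, k3⟩
        refine ⟨fun i => Submodule.add_mem _ (h1 i) (k1 i), ?_, fun i => ?_⟩
        · show v.2.2 i₀ + w.2.2 i₀ = 0
          rw [h2, k2, add_zero]
        · rw [Prod.snd_add, map_add, map_add, h3 i, k3 i, Prod.fst_add, Pi.add_apply, mul_add]
      smul_mem' := by
        rintro c v ⟨h1, h2, h3⟩
        refine ⟨fun i => Submodule.smul_mem _ _ (h1 i), ?_, fun i => ?_⟩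
        · show c * v.2.2 i₀ = 0
          rw [h2, mul_zero]
        · rw [Prod.smul_snd, map_smul, map_smul, h3 i, Prod.smul_fst, Pi.smul_apply,
            mul_smul_comm] }
  have hS1 : ∀ v : (ι → Polynomial K) × (Op R K n × (ι → K)), v ∈ S1 ↔
      (∀ i, (v.1 i).natDegree ≤ e i) ∧ ∃ G : Tup ι K n, Sym i₀ F v.2.1 v.2.2 G ∧
        ∀ i, res x y (G i) = Polynomial.X * v.1 i := by
    intro v
    constructor
    · rintro ⟨h1, h2, h3⟩
      refine ⟨fun i => mem_degreeLT.1 (h1 i), fun i => symL hOP F i v.2,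
        ⟨h2, fun i => (symL_apply hOP F i v.2).symm⟩, h3⟩
    · rintro ⟨h1, G, ⟨h2, h3⟩, h4⟩
      refine ⟨fun i => mem_degreeLT.2 (h1 i), h2, fun i => ?_⟩
      rw [symL_apply, h3 i]
      exact h4 i
  let S2 : Submodule K ((ι → Polynomial K) × (Op R K n × (ι → K))) :=
    S1 ⊓ U.comap (opVL hOP x ∘ₗ LinearMap.fst K _ _ ∘ₗ LinearMap.snd K _ _)
  have hS2 : ∀ v : (ι → Polynomial K) × (Op R K n × (ι → K)), v ∈ S2 ↔
      ((∀ i, (v.1 i).natDegree ≤ e i) ∧ ∃ G : Tup ι K n, Sym i₀ F v.2.1 v.2.2 G ∧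
        ∀ i, res x y (G i) = Polynomial.X * v.1 i) ∧ opV v.2.1 x ∈ U := by
    intro v
    rw [Submodule.mem_inf, hS1, Submodule.mem_comap]
    rfl
  have hYl : ∀ P, P ∈ YlT R i₀ e F x y U ↔ (∀ i, (P i).natDegree ≤ e i) ∧
      ∃ (τ : Op R K n) (l : ι → K) (G : Tup ι K n), Sym i₀ F τ l G ∧
        (∀ i, res x y (G i) = Polynomial.X * P i) ∧ opV τ x ∈ U := by
    intro P
    constructor
    · intro hP
      have h1 : YlT R i₀ e F x y U ≤ S2.map (LinearMap.fst K _ _) := by
        unfold YlT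
        rw [Submodule.span_le]
        rintro P ⟨h2, τ, l, G, h3, h4, h5⟩
        exact ⟨(P, (τ, l)), (hS2 _).2 ⟨⟨h2, G, h3, h4⟩, h5⟩, rfl⟩
      obtain ⟨v, hv, rfl⟩ := h1 hP
      obtain ⟨⟨h2, G, h3, h4⟩, h5⟩ := (hS2 v).1 hv
      exact ⟨h2, v.2.1, v.2.2, G, h3, h4, h5⟩
    · intro hP
      exact Submodule.subset_span hP
  set PI : Submodule K (ι → Polynomial K) :=
    Submodule.pi Set.univ fun i => Polynomial.degreeLT K (e i + 1) with hPI
  have hPIfd : FiniteDimensional K PI := pi_fd _ fun i => inferInstance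
  have hle : YlT R i₀ e F x y U ≤ PI := by
    intro P hP i _
    exact mem_degreeLT.2 (((hYl P).1 hP).1 i)
  have hfd : FiniteDimensional K (YlT R i₀ e F x y U) := Submodule.finiteDimensional_of_le hle
  refine ⟨fun P hP => (hYl P).1 hP, hfd, ?_⟩
  obtain ⟨hE1, -, -, hE4, hE5⟩ := hEVT R K n ι i₀ e F D Z x hS hx
  have hUle : U ≤ TxT Z F x := hE5 (IlT e x y) fun G hG i _ => eval_Il (hG i (Set.mem_univ i))
  let α : S1 →ₗ[K] (ι → Polynomial K) := LinearMap.fst K _ _ ∘ₗ S1.subtype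
  let β : S1 →ₗ[K] (Fin (n + 1) → K) ⧸ U :=
    U.mkQ ∘ₗ opVL hOP x ∘ₗ LinearMap.fst K _ _ ∘ₗ LinearMap.snd K _ _ ∘ₗ S1.subtype
  have hα : ∀ v : S1, α v = v.1.1 := fun v => rfl
  have hβ : ∀ v : S1, β v = U.mkQ (opV v.1.2.1 x) := fun v => rfl
  have h := key α β PI (YlT R i₀ e F x y U) ⊥ ((TxT Z F x).map U.mkQ) hle
    (by
      intro v i _
      rw [hα]
      exact mem_degreeLT.2 (((hS1 _).1 v.2).1 i)) (by
      intro v hv
      rw [hα] at hv
      obtain ⟨h1, G, hG, h2⟩ := (hS1 _).1 v.2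
      obtain ⟨h3, τ', l', G', hG', h4, h5⟩ := (hYl _).1 hv
      rw [hβ, Submodule.mem_bot, Submodule.mkQ_apply, Submodule.Quotient.mk_eq_zero]
      have e1 : ∀ i, symL hOP F i v.1.2 = G i := fun i => by
        rw [symL_apply]
        exact hG.2 i
      have e2 : ∀ i, symL hOP F i (τ', l') = G' i := fun i => by
        rw [symL_apply]
        exact hG'.2 i
      have e3 : ∀ i, symL hOP F i (v.1.2 - (τ', l')) = G i - G' i := fun i => by
        rw [map_sub, e1, e2]
      have h6 : (fun i => G i - G' i) ∈ IlT e x y := by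
        intro i _
        apply hIL K n (e i) x y hxy
        · show (G i - G' i).IsHomogeneous _
          rw [← e3]
          exact symL_homog hOP hS.homog i _
        · rw [← resL_apply, map_sub, resL_apply, resL_apply, h2, h4, sub_self]
      have h6' : Sym i₀ F (v.1.2 - (τ', l')).1 (v.1.2 - (τ', l')).2 (fun i => G i - G' i) := by
        refine ⟨?_, fun i => ?_⟩
        · show v.1.2.2 i₀ - l' i₀ = 0
          rw [hG.1, hG'.1, sub_zero]
        · show _ = G i - G' i
          rw [← e3 i, symL_apply]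
      have h7 := mem_UtT (x := x) h6 h6'
      have h8 : opV v.1.2.1 x = opV (v.1.2 - (τ', l')).1 x + opV τ' x := by
        rw [← opVL_apply hOP, ← opVL_apply hOP, ← opVL_apply hOP, Prod.fst_sub, map_sub]
        abel
      rw [h8]
      exact U.add_mem h7 h5) (by
      intro q hq
      obtain ⟨w, hw, rfl⟩ := hq
      obtain ⟨τ, l, G, c, h1, h2, h2'⟩ := hSUT R K n ι i₀ e F D Z x hi₀ hS hx w hw
      have hP : ∀ i, ∃ P : Polynomial K, P.natDegree ≤ e i ∧
          res x y (G i) = Polynomial.X * P := by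
        intro i
        have h3 : (G i).IsHomogeneous (e i + 1) := by
          rw [← h1.2 i]
          have := symL_homog hOP hS.homog i (τ, l)
          rwa [symL_apply] at this
        have h4 := hRS K n (e i + 1) (G i) 0 0 0 0 x y 0 0
        obtain ⟨-, -, -, -, -, -, -, h5, -, -, -, h6, -⟩ := h4
        rw [h2 i] at h5
        have h7 := h6 h3
        obtain ⟨P, hP⟩ := Polynomial.X_dvd_iff.2 h5
        refine ⟨P, ?_, hP⟩
        by_cases hP0 : P = 0
        · rw [hP0]; simp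
        · rw [hP, Polynomial.natDegree_X_mul hP0] at h7
          omega
      choose P hP1 hP2 using hP
      refine ⟨⟨(P, (τ, l)), (hS1 _).2 ⟨hP1, G, h1, hP2⟩⟩, ?_⟩
      rw [hβ]
      simp only
      rw [h2']
      simp only [map_add, map_smul]
      have h8 : U.mkQ x = 0 := by
        rw [Submodule.mkQ_apply, Submodule.Quotient.mk_eq_zero]
        exact self_mem_UtT i₀ F x _
      rw [h8, smul_zero, add_zero])
  have hPIr : Module.finrank K PI = ∑ i, (e i + 1) := by
    rw [hPI, pi_finrank _ fun i => inferInstance]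
    exact Finset.sum_congr rfl fun i _ => finrank_degreeLT (e i + 1)
  have hT : Module.finrank K ((TxT Z F x).map U.mkQ) + Module.finrank K U =
      Module.finrank K (TxT Z F x) := by
    have h1 := LinearMap.finrank_range_add_finrank_ker (U.mkQ ∘ₗ (TxT Z F x).subtype)
    have h2 : LinearMap.range (U.mkQ ∘ₗ (TxT Z F x).subtype) = (TxT Z F x).map U.mkQ := by
      rw [LinearMap.range_comp, Submodule.range_subtype]
    have h3 : LinearMap.ker (U.mkQ ∘ₗ (TxT Z F x).subtype) = U.comap (TxT Z F x).subtype := by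
      rw [LinearMap.ker_comp, Submodule.ker_mkQ]
    rw [h2, h3, LinearEquiv.finrank_eq (Submodule.comapSubtypeEquivOfLe hUle)] at h1
    exact h1
  rw [finrank_bot, zero_add, hPIr] at h
  omega

end Pool.Agent.H1.VMP
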