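import Pool.Agent.H30.VM.TargetsB
import Pool.Agent.H97.VG.KY

/-!
# MP_70ba79_ag: module SY of the board `vmp_modules`
-/

set_option autoImplicit false

namespace Pool.Agent.H1.VMP

open MvPolynomial SC Pool.Agent.H27.LV Pool.Agent.H17.VG Pool.Agent.H97.VG
open Pool.Agent.H17.CI (Tup IlT PQT TxT frmT upT RatT)
open Pool.Agent.H30.VM

/-- SY -/
theorem pf_SY : T_SY := by
  intro R K _ _ _ n ι i₀ e F τ τ' l l' G G' a b hF h1 h2
  refine ⟨⟨?_, ?_⟩, ?_⟩
  · change a * l i₀ + b * l' i₀ = 0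
    rw [h1.1, h2.1, mul_zero, mul_zero, add_zero]
  · intro i
    rw [opF_lin]
    have h3 : (a • l + b • l') i = a * l i + b * l' i := rfl
    have h4 : (a • G + b • G') i = a • G i + b • G' i := rfl
    rw [h3, h4, ← h1.2 i, ← h2.2 i, smul_eq_C_mul, smul_eq_C_mul, C_add, C_mul, C_mul]
    ring
  · intro i
    rw [← h1.2 i]
    refine (opF_homog τ (F i) (e i + 1) (hF i)).add ?_
    have h3 := (isHomogeneous_C (Fin (n + 1)) (l i)).mul (hF i)
    rwa [zero_add] at h3

end Pool.Agent.H1.VMP
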