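import Pool.Agent.H30.VM.TargetsB
import Pool.Agent.H30.VM.TargetsC
import Pool.Agent.H66.CI.TPT

/-!
# MP_70ba79_ag: module TPT of the board `vmp_modules`
-/

set_option autoImplicit false

namespace Pool.Agent.H1.VMP

open MvPolynomial SC Pool.Agent.H27.LV Pool.Agent.H17.VG
open Pool.Agent.H66.CI (single_eq)
open Pool.Agent.H17.CI (Tup IlT PQT TxT frmT upT RatT)
open Pool.Agent.H30.VM

theorem pf_TPT (hIP : Pool.Agent.H17.VG.T_IP) (hSY : T_SY) (hEVT : T_EVT) (hSUT : T_SUT) :
    T_TPT := by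
  intro R K _ _ _ _ n ι _ i₀ e F D Z x hi₀ hS hP
  set W : Submodule K (Tup ι K n) := Submodule.span K {G | ∃ (ξ : Fin (n + 1) → K)
    (q : (Σ i, Mon (n + 1) (e i)) → K), ∑ i, ξ i * x i = 0 ∧ G = fun i => lin ξ * frmT q i}
    with hW
  apply le_antisymm
  · refine (hEVT R K n ι i₀ e F D Z x hS hP).2.2.2.2 W ?_
    intro G hG i _
    rw [hW] at hG
    induction hG using Submodule.span_induction with
    | mem G h =>
      obtain ⟨ξ, q, h1, rfl⟩ := h
      rw [map_mul, Pool.Agent.H66.CI.eval_lin, h1, zero_mul]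
    | zero => simp
    | add G G' _ _ h h' => rw [Pi.add_apply, map_add, h, h', add_zero]
    | smul a G _ h => rw [Pi.smul_apply, smul_eval, h, mul_zero]
  · intro w hw
    obtain ⟨τ, l, G, c, h1, h2, h3⟩ := hSUT R K n ι i₀ e F D Z x hi₀ hS hP w hw
    have hx : x ≠ 0 := hP.dx.ne_zero 0
    have hG : ∀ i, (G i).IsHomogeneous (e i + 1) :=
      (hSY R K n ι i₀ e F τ τ l l G G 0 0 hS.homog h1 h1).2
    classical
    have h4 : ∀ i, (Pi.single i (G i) : Tup ι K n) ∈ W := by
      intro i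
      have h5 := hIP K n (e i) x hx (G i) (hG i) (h2 i)
      have h6 : (G i) ∈ W.comap
          (LinearMap.single K (fun _ : ι => MvPolynomial (Fin (n + 1)) K) i) := by
        refine Submodule.span_le.2 ?_ h5
        rintro G' ⟨ξ, Q, h7, h8, rfl⟩
        obtain ⟨q, hq⟩ := single_eq (ι := ι) (e := e) i ξ h8
        change (Pi.single i (lin ξ * Q) : Tup ι K n) ∈ W
        rw [hq]
        exact Submodule.subset_span ⟨ξ, q, h7, rfl⟩
      exact h6
    have h5 : G ∈ W := by
      have h6 : G = ∑ i, (Pi.single i (G i) : Tup ι K n) := (Finset.univ_sum_single G).symm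
      rw [h6]
      exact Submodule.sum_mem _ fun i _ => h4 i
    have h6 : opV τ x ∈ UtT R i₀ F x W :=
      Submodule.subset_span (Or.inl ⟨τ, l, G, h5, h1, rfl⟩)
    have h7 : x ∈ UtT R i₀ F x W := Submodule.subset_span (Or.inr rfl)
    have h8 : w = opV τ x - c • x := by rw [h3]; simp
    rw [h8]
    exact Submodule.sub_mem _ h6 (Submodule.smul_mem _ _ h7)

end Pool.Agent.H1.VMP
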